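import Pool.Agent.Helper5.WD.Stmts
import Pool.Agent.Helper5.UN.B3N

/-! # Row GNUM of the sheet WD: sizes of the parameters (helper62, after helper5's B3N) -/

set_option autoImplicit false

open Finset Pool.Agent.Helper8.UN Pool.Agent.Helper5.FV

namespace Pool.Agent.Helper5.WD

theorem st_GNUM : ST_GNUM := by
  obtain ⟨n₀, hn₀⟩ := b3n_ev
  refine ⟨n₀, ?_⟩
  intro n hn D0 r k hD hr hk
  obtain ⟨hL, hLn⟩ := hn₀ n hn
  have hL0 : 0 < Real.log n := by linarith
  have hn0 : (0 : ℝ) < n := by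
    rcases Nat.eq_zero_or_pos n with h | h
    · subst h; simp at hL0
    · exact_mod_cast h
  have hn6 : (1000000 : ℝ) ≤ n := by linarith
  obtain ⟨a, ha⟩ : ∃ a : ℝ, a = (n : ℝ) / Real.log n := ⟨_, rfl⟩
  have ha2 : (n : ℝ) / (2 * Real.log n) = a / 2 := by
    rw [ha]
    field_simp
  rw [← ha] at hD hk
  rw [ha2]
  have ha0 : 0 < a := by rw [ha]; positivity
  have ha6 : 1000000 ≤ a := by
    rw [ha, le_div_iff₀ hL0]; linarith
  have hr4 : 4 ≤ r := by
    have : (4 : ℝ) ≤ r := by linarith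
    exact_mod_cast this
  have hr1 : ((r - 1 : ℕ) : ℝ) = (r : ℝ) - 1 := by rw [Nat.cast_sub (by omega)]; norm_num
  have hs : 1999 * Real.log n ≤ ((r - 1 : ℕ) : ℝ) := by rw [hr1]; linarith
  have hdiv : ((n / (r - 1) : ℕ) : ℝ) ≤ a / 1999 := by
    calc ((n / (r - 1) : ℕ) : ℝ) ≤ (n : ℝ) / ((r - 1 : ℕ) : ℝ) := Nat.cast_div_le
      _ ≤ (n : ℝ) / (1999 * Real.log n) :=
          div_le_div_of_nonneg_left hn0.le (by positivity) hs
      _ = a / 1999 := by rw [ha]; field_simp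
  have hDX : (DX n D0 r : ℝ) ≤ 1 / 100000 * a + a / 1999 + 1 := by
    unfold DX
    push_cast
    linarith
  have h0 : 1000 * ((D0 : ℝ) + 1) ≤ k := by linarith
  have h1 : 1000 * (DX n D0 r : ℝ) ≤ k := by linarith
  have h2 : 10000 * (D0 : ℝ) ≤ k := by linarith
  have h3 : (10000 : ℝ) ≤ k := by linarith
  have hq : 649 / 1000 * a ≤ (k : ℝ) - (D0 + 1) := by linarith
  have hT := b3n_T n (r - 1) ((k : ℝ) - (D0 + 1)) hL hs (by rw [← ha]; exact hq)
  have hr2 : r - 1 - 1 = r - 2 := by omega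
  rw [hr2] at hT
  have hn1 : (1 : ℝ) / n ≤ 1 / 1000000 := div_le_div_of_nonneg_left (by norm_num) (by norm_num) hn6
  refine ⟨hr4, by exact_mod_cast h0, by exact_mod_cast h1, by exact_mod_cast h2,
    by exact_mod_cast h3, by linarith, by linarith, by linarith, ?_⟩
  linarith

end Pool.Agent.Helper5.WD
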